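import Pool.Agent.Helper136_OrPath.MainT

set_option autoImplicit false

/-!
# Antidirected paths in oriented graphs of minimum pseudo-semidegree slightly above k/2

If every nonzero out- or indegree of an oriented graph is at least `k / 2 + E`, where `E ^ 4` is at
least `10 ^ 6 * k ^ 3 * log (k + 1)`, then there is an antidirected path with `k` edges starting
with a forward edge at any vertex of positive outdegree, and one starting with a backward edge at
any vertex of positive indegree.  There is no restriction on the number of vertices or on the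
maximum degree.
-/

namespace Pool.Agent.Results.MP_9f658e_co.Asymptotic

open Finset Pool.Agent.Helper136_OrPath

theorem result :
    ∀ (k : ℕ) (E : ℝ) (V : Type) [Finite V] (G : Digraph V),
      (∀ u v, G.Adj u v → ¬ G.Adj v u) →
      0 ≤ E → 10 ^ 6 * (k : ℝ) ^ 3 * Real.log ((k : ℝ) + 1) ≤ E ^ 4 →
      (∀ v, ({w | G.Adj v w}.ncard = 0 ∨ (k : ℝ) / 2 + E ≤ ({w | G.Adj v w}.ncard : ℝ)) ∧
        ({w | G.Adj w v}.ncard = 0 ∨ (k : ℝ) / 2 + E ≤ ({w | G.Adj w v}.ncard : ℝ))) →
      (∀ v₀ : V, (∃ w, G.Adj v₀ w) → ∃ f : Fin (k + 1) → V, Function.Injective f ∧ f 0 = v₀ ∧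
        ∀ i : Fin k, (Even (i : ℕ) → G.Adj (f i.castSucc) (f i.succ)) ∧
          (Odd (i : ℕ) → G.Adj (f i.succ) (f i.castSucc))) ∧
      (∀ v₀ : V, (∃ w, G.Adj w v₀) → ∃ f : Fin (k + 1) → V, Function.Injective f ∧ f 0 = v₀ ∧
        ∀ i : Fin k, (Even (i : ℕ) → G.Adj (f i.succ) (f i.castSucc)) ∧
          (Odd (i : ℕ) → G.Adj (f i.castSucc) (f i.succ))) := by
  classical
  intro k E V _ G hasym hE0 hE hd
  have : Fintype V := Fintype.ofFinite V
  have hcard : ∀ (b : Bool) (v : V), (nb G.Adj b v).card =
      if b then {w | G.Adj v w}.ncard else {w | G.Adj w v}.ncard := by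
    intro b v
    cases b
    · rw [if_neg (by simp)]
      rw [← Set.ncard_coe_finset]
      congr 1
      ext z
      simp [mem_nb]
    · rw [if_pos rfl]
      rw [← Set.ncard_coe_finset]
      congr 1
      ext z
      simp [mem_nb]
  have hlow : ∀ (b : Bool) (v : V), (nb G.Adj b v).Nonempty →
      ⌈(k : ℝ) / 2 + E⌉₊ ≤ (nb G.Adj b v).card := by
    intro b v hne
    have h0 : (nb G.Adj b v).card ≠ 0 := by
      have := Finset.card_pos.2 hne
      omega
    rw [hcard] at h0 ⊢
    cases b
    · rw [if_neg (by simp)] at h0 ⊢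
      rcases (hd v).2 with h | h
      · exact absurd h h0
      · exact Nat.ceil_le.2 h
    · rw [if_pos rfl] at h0 ⊢
      rcases (hd v).1 with h | h
      · exact absurd h h0
      · exact Nat.ceil_le.2 h
  -- the two signs at once: `s = true` starts with a forward edge
  have key : ∀ (s : Bool) (v₀ : V), (nb G.Adj s v₀).Nonempty →
      ∃ w : ℕ → V, w 0 = v₀ ∧
        (∀ a < k, w (a + 1) ∈ nb G.Adj (if a % 2 = 0 then s else !s) (w a)) ∧
        (∀ a ≤ k, ∀ b ≤ k, w a = w b → a = b) := by
    intro s v₀ hne
    refine main_parity G.Adj hasym (fun a => if a % 2 = 0 then s else !s)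
      (fun i => univ.filter (fun x => (nb G.Adj (if i % 2 = 0 then s else !s) x).Nonempty))
      k ⌈(k : ℝ) / 2 + E⌉₊ 1 E (fun b' => if b' = s then 1 else 0) ?_ ?_ ?_ le_rfl hE0 ?_
      (Nat.le_ceil _) v₀ ?_
    · intro b
      split_ifs <;> omega
    · intro i x hx
      rw [mem_filter] at hx
      refine ⟨hlow _ x hx.2, ?_⟩
      intro z hz
      rw [mem_filter]
      refine ⟨mem_univ _, x, ?_⟩
      have h1 : (if (i + 1) % 2 = 0 then s else !s) = !(if i % 2 = 0 then s else !s) := by
        rcases Nat.mod_two_eq_zero_or_one i with h | h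
        · have h2 : (i + 1) % 2 = 1 := by omega
          rw [h, h2]; simp
        · have h2 : (i + 1) % 2 = 0 := by omega
          rw [h, h2]; simp
      rw [h1, mem_nb_not]
      exact hz
    · intro j x _ b' hb'
      rw [one_mul]
      apply le_of_eq
      congr 2
      rcases Nat.mod_two_eq_zero_or_one j with h | h
      · rw [h] at hb' ⊢
        by_cases hbs : b' = s
        · rw [if_pos hbs] at hb'; omega
        · rw [if_pos rfl]
          clear hb' h
          revert hbs
          cases b' <;> cases s <;> simp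
      · rw [h] at hb' ⊢
        by_cases hbs : b' = s
        · rw [if_neg (by omega), hbs]
        · rw [if_neg hbs] at hb'; omega
    · rw [Nat.cast_one]; exact hE
    · rw [mem_filter]
      exact ⟨mem_univ _, by simpa using hne⟩
  constructor
  · intro v₀ hv₀
    obtain ⟨w, hw0, hw1, hw2⟩ := key true v₀ (by
      obtain ⟨z, hz⟩ := hv₀
      exact ⟨z, by rw [mem_nb]; simpa using hz⟩)
    refine ⟨fun i => w i, ?_, hw0, ?_⟩
    · intro a b hab
      exact Fin.ext (hw2 a (by omega) b (by omega) hab)
    · intro i
      have h1 := hw1 i i.isLt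
      constructor
      · intro hi
        rw [Nat.even_iff] at hi
        rw [hi, if_pos rfl, mem_nb, if_pos rfl] at h1
        exact h1
      · intro hi
        rw [Nat.odd_iff] at hi
        rw [hi, if_neg (by omega), mem_nb, if_neg (by simp)] at h1
        exact h1
  · intro v₀ hv₀
    obtain ⟨w, hw0, hw1, hw2⟩ := key false v₀ (by
      obtain ⟨z, hz⟩ := hv₀
      exact ⟨z, by rw [mem_nb]; simpa using hz⟩)
    refine ⟨fun i => w i, ?_, hw0, ?_⟩
    · intro a b hab
      exact Fin.ext (hw2 a (by omega) b (by omega) hab)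
    · intro i
      have h1 := hw1 i i.isLt
      constructor
      · intro hi
        rw [Nat.even_iff] at hi
        rw [hi, if_pos rfl, mem_nb, if_neg (by simp)] at h1
        exact h1
      · intro hi
        rw [Nat.odd_iff] at hi
        rw [hi, if_neg (by omega), mem_nb, if_pos (by simp)] at h1
        exact h1

end Pool.Agent.Results.MP_9f658e_co.Asymptotic
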